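import Pool.Agent.Q138.PS.VX
import Pool.Agent.Q138.PS.VY
import Pool.Agent.Q138.PS.WB
import Pool.Agent.Q138.AI.R4f096c

/-!
# The space of the zeta values and truncated integrals at `1/t`, `t` close to `α P(n)`

For integers `t ≥ 2` let `I_s(t) = (1/(s-1)!) ∫_{1/t}^1 log(1/v)^{s-1} / (1-v) dv` and `q_{s,i}(t) = log(t)^i Li_{s-i}(1/t)`,
`0 ≤ i < s`. For a finite set `F` of weights and real numbers `θ` let `Z_F(θ)` be the rational span of `θ` and the `ζ(s)`, `s ∈ F`,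
and `P_F(θ, t)` that of `θ` and the `I_s(t)`, `q_{s,i}(t)`, `s ∈ F`. Let `S` be any countable set of complex numbers.

Let `d ≥ 2`. Outside a set of real numbers of Hausdorff dimension at most `d / (d + 1 / (d 2 ^ (d - 1)))` (that is `8 / 9` for
`d = 2`) every `α > 0` has the following property. There is `η > 0` such that the properties `A` of integers named below are
RARE along `α P(n)`: there is `κ > 0` such that for all large `N` and ALL integral polynomials `P` of degree `d` with positive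
leading coefficient and coefficients of size at most `N ^ η`, for all but `N ^ (1 - κ)` of the `n ≤ N`, NO integer `t ≥ b` (`b = 2`
or `3`) with `|t - ⌊α P(n)⌋| ≤ N ^ κ` has the property `A`.

* `dim P_F(θ, t) ≠ dim Z_F(θ) + ∑_{s ∈ F} s` is rare, for all `F` and all families `θ` of real numbers in `S`;
* for each `u ≥ 2`: `ζ(u)` is not in `Z_F(θ)` if and only if it is rare that `I_u(t)` is in the space spanned by `P_F(θ, t)` and
  the `q_{u,i}(t)`;
* `ζ(11)` is irrational if and only if it is rare that `I_11(t)` is a rational combination of `1` and the eleven products;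
* for each finitely generated rational space `K` inside the rational span of `S` it is rare that there is a relation between `1`
  and the numbers `I_s(t)`, `q_{s,i}(t)`, `s ∈ F`, with coefficients in `K`, which does not come from a relation between `1` and
  the `ζ(s)`, `s ∈ F`.
-/

set_option autoImplicit false

namespace Pool.Agent.Results.MP_4f096c_nt.DimensionsNearRealMultiples

open Filter Module Pool.Agent.Q138.PS Pool.Agent.Q138.AI.R4f096c

/-- **Theorem.** -/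
theorem result (d : ℕ) (hq : 2 ≤ d) (S : Set ℂ) (hS : S.Countable) :
    ∃ E : Set ℝ, dimH E ≤ ENNReal.ofReal (d / (d + 1 / ((d : ℝ) * 2 ^ (d - 1)))) ∧ ∀ α : ℝ, 0 < α → α ∉ E →
      ∃ η : ℝ, 0 < η ∧
      (∀ F : Finset ℕ, (∀ s ∈ F, 2 ≤ s) → ∀ (g : ℕ) (θ : Fin g → ℝ), (∀ i, ((θ i : ℝ) : ℂ) ∈ S) →
        Rare d α η 2 fun n => ¬ finrank ℚ (P F θ n) = finrank ℚ (Z F θ) + ∑ s ∈ F, s) ∧
      (∀ F : Finset ℕ, (∀ s ∈ F, 2 ≤ s) → ∀ u : ℕ, 2 ≤ u → ∀ (g : ℕ) (θ : Fin g → ℝ), (∀ i, ((θ i : ℝ) : ℂ) ∈ S) →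
        (zeta u ∉ Z F θ ↔ Rare d α η 2 fun n => I u n ∈ P' F u θ n)) ∧
      (Irrational (zeta 11) ↔ Rare d α η 2 fun n =>
        ∃ (κ : ℚ) (c : ℕ → ℚ), I 11 n = κ + ∑ i ∈ Finset.range 11, (c i : ℝ) * q 11 i n) ∧
      ∀ F : Finset ℕ, (∀ s ∈ F, 2 ≤ s) → ∀ K : Submodule ℚ ℂ, K.FG → K ≤ Submodule.span ℚ S →
        Rare d α η 2 fun n => ¬ OnlyRelations F K n := by
  obtain ⟨-, h2, h3, ⟨h4a, h4b⟩, h5, -⟩ := Pool.Agent.Q138.AI.R4f096c.result
  have hc := countFG S hS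
  have hcS := hS.to_subtype
  have hcR : Countable {x : ℝ // ((x : ℝ) : ℂ) ∈ S} := by
    have hinj : Function.Injective (fun x : {x : ℝ // ((x : ℝ) : ℂ) ∈ S} => (⟨((x.1 : ℝ) : ℂ), x.2⟩ : S)) := by
      intro x y h
      exact Subtype.ext (Complex.ofReal_injective (congrArg Subtype.val h))
    exact hinj.countable
  obtain ⟨E, hE, hg⟩ := rare_ae (ι := Unit ⊕ ((Finset ℕ × ℕ × (Σ g : ℕ, Fin g → {x : ℝ // ((x : ℝ) : ℂ) ∈ S}) × Bool) ⊕
      (Finset ℕ × {K : Submodule ℚ ℂ // K.FG ∧ K ≤ Submodule.span ℚ S}))) d hq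
    (Sum.elim (fun _ n => ∃ (κ : ℚ) (c : ℕ → ℚ), I 11 n = κ + ∑ i ∈ Finset.range 11, (c i : ℝ) * q 11 i n) (Sum.elim
      (fun i n => if i.2.2.2 then I i.2.1 n ∈ P' i.1 i.2.1 (fun j => (i.2.2.1.2 j).1) n else
        ¬ finrank ℚ (P i.1 (fun j => (i.2.2.1.2 j).1) n) = finrank ℚ (Z i.1 (fun j => (i.2.2.1.2 j).1)) + ∑ s ∈ i.1, s)
      (fun i n => ¬ OnlyRelations i.1 i.2.1 n)))
  refine ⟨E, hE, fun α hα hαE => ?_⟩
  obtain ⟨η, hη, h1⟩ := hg α hα hαE
  refine ⟨η, hη, fun F hF g θ hθ => ?_, fun F hF u hu g θ hθ => ⟨fun h => ?_, fun h => ?_⟩,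
    ⟨fun h => h1 (Sum.inl ()) 2 (h4b.1 h), fun h => ?_⟩, fun F hF K hK hKS => ?_⟩
  · obtain ⟨-, C, c, hc, h6⟩ := h2 F hF g
    refine (h1 (Sum.inr (Sum.inl (F, 0, ⟨g, fun i => ⟨θ i, hθ i⟩⟩, false))) 2 ?_).mono le_rfl fun t _ ht => by simpa using ht
    refine Few.mono (A := fun n => ¬ finrank ℚ (P F θ n) = finrank ℚ (Z F θ) + ∑ s ∈ F, s) ⟨C, c, hc, fun T hT => h6 θ T hT⟩
      fun n _ hn => by simpa using hn
  · obtain ⟨-, C, c, hc, h6⟩ := h3 F hF u hu g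
    refine (h1 (Sum.inr (Sum.inl (F, u, ⟨g, fun i => ⟨θ i, hθ i⟩⟩, true))) 2 ?_).mono le_rfl fun t _ ht => by simpa using ht
    refine Few.mono (A := fun n => I u n ∈ P' F u θ n) ⟨C, c, hc, fun T hT => h6 θ h T hT⟩ fun n _ hn => by simpa using hn
  · exact (((h3 F hF u hu g).1) θ).2 (h.exists_not hη)
  · obtain ⟨n, hn, hn'⟩ := h.exists_not hη
    exact h4a.2 ⟨n, hn, fun κ c h7 => hn' ⟨κ, c, h7⟩⟩
  · refine h1 (Sum.inr (Sum.inr (F, ⟨K, hK, hKS⟩))) 2 ?_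
    obtain ⟨g, θ, hθ⟩ := fg_range K hK
    obtain ⟨C, c, hc, h6⟩ := h5 F hF g
    refine ⟨C, c, hc, fun T hT => ?_⟩
    have h7 := h6 θ T hT
    rw [hθ] at h7
    exact h7

end Pool.Agent.Results.MP_4f096c_nt.DimensionsNearRealMultiples
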