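import Pool.Agent.Q203.XS.Fin

/-!
# A sharper simultaneous measure for the nine numbers `ζ(11), ζ(13), …, ζ(27)`

Rational numbers with a common denominator `q` cannot approximate all the nine numbers with an error below
`c q^(-392)`. The exponent in the starting files is `1628`.

New with respect to the starting files (`Pool/Agent/Q203/SM`, `Pool/Agent/Q203/XS`):

* the coefficients of the nine numbers in the linear forms are bounded entry by entry of the Hankel matrix, each
  factor of each basis polynomial with its own bound, and compared with the bound of the same entry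
  (`XS/Rho.lean`, `XS/Pert.lean`): the error `e^(-483.2 n)` suffices instead of `e^(-1280.4 n)`;
* the `p`-adic bounds hold at points with `p ^ 11` in the denominator for all primes `n/20 < p < 17n/2`
  (`XS/PAd.lean`), so eleventh powers of skipped primes in `q` cost nothing, and the prime parameter
  `n ≤ 0.8097 log q` is the largest prime in the class `1` modulo `24` with `n^11 ∤ q` (`SM/Sel2.lean`).
-/

namespace Pool.Agent.Results.MP_4f096c_nt.MeasureZeta11To27Sharp

/-- There is `c > 0` such that for all integers `a j` and `q ≥ 1` there is an odd `j`, `11 ≤ j ≤ 27`, with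
`|ζ(j) - a j / q| ≥ c q^(-392)`, where `ζ(j) = ∑ 1/(n+1)^j`. -/
theorem result : ∃ c : ℝ, 0 < c ∧ ∀ (a : ℕ → ℤ) (q : ℕ), 0 < q → ∃ j : ℕ, Odd j ∧ 11 ≤ j ∧ j ≤ 27 ∧
    c / (q : ℝ) ^ 392 ≤ |(∑' n : ℕ, 1 / ((n : ℝ) + 1) ^ j) - (a j : ℝ) / q| := by
  obtain ⟨c, hc, h⟩ := Pool.Agent.Q203.XS.main'
  refine ⟨c, hc, fun a q hq => ?_⟩
  obtain ⟨l, hl, h1⟩ := h a q hq
  refine ⟨l + 8, ?_, ?_, ?_, h1⟩
  · fin_cases hl <;> decide
  · fin_cases hl <;> decide
  · fin_cases hl <;> decide

end Pool.Agent.Results.MP_4f096c_nt.MeasureZeta11To27Sharp
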