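import Pool.Agent.Q189.MV.Niel6

/-!
# `ζ(11)`, other zeta values and truncated integrals at the points `1/n`

For `s ≥ 2` and an integer `n ≥ 2` let `I_s(n) = (1/(s-1)!) ∫_{1/n}^1 log(1/v)^(s-1) / (1-v) dv`, the truncation of the integral
for `ζ(s)`, and `q_{s,i}(n) = log(n)^i Li_{s-i}(1/n)`, `0 ≤ i < s`. Then `ζ(s) = I_s(n) + ∑_i q_{s,i}(n) / i!`. We study several
weights `s` in a finite set `F` together.

* Dimensions. For ALL `n ≥ 2` the rational space `P(n)` spanned by given real numbers `θ_1, …, θ_g`, the `I_s(n)` and the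
  `q_{s,i}(n)`, `s ∈ F`, has dimension at most `∑_{s ∈ F} s + dim Z`, where `Z` is the space spanned by the `θ_l` and the
  `ζ(s)`, `s ∈ F`; and there is equality for all `n ≤ T` but `C T ^ (1 - c)`. For `F = {5, 7, 9, 11}` and `θ = 1` this is
  `32 + dim ⟨1, ζ(5), ζ(7), ζ(9), ζ(11)⟩`.
* One zeta value modulo others. For `t ≥ 2` (for instance `t = 11`, `F = {5, 7, 9}` or `F = ∅`): `ζ(t)` is NOT in the space `Z`
  if and only if for ONE `n ≥ 2` the number `I_t(n)` is not in the space spanned by `P(n)` and the products `q_{t,i}(n)`, and then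
  this holds for all `n ≤ T` but `C T ^ (1 - c)`.
* Relations with coefficients in a finitely generated space `K` of complex numbers, for instance a number field: at all
  `n ≤ T` but `C T ^ (1 - c)` (`C`, `c > 0` depend on `F` and the number of generators only) the relations
  `κ + ∑_s (a_s I_s(n) + ∑_i c_{s,i} q_{s,i}(n)) = 0` are exactly those with `κ + ∑_s a_s ζ(s) = 0` and `i! c_{s,i} = a_s`.
* Near relations: at such `n` and almost all heights `H`, for coefficients which are integral combinations of the generators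
  with coefficients at most `H`, the numbers `|κ + ∑_s a_s ζ(s)|` and `|i! c_{s,i} - a_s|` are at most `H ^ B` times the absolute
  value of the linear form.
-/

set_option autoImplicit false

open Module

namespace Pool.Agent.Results.MP_4f096c_nt.SimultaneousTruncation

/-- `ζ(s)` -/
noncomputable def zeta (s : ℕ) : ℝ := ∑' n : ℕ, (1 : ℝ) / ((n : ℝ) + 1) ^ s

/-- the polylogarithm `Li_s(x) = ∑ x ^ m / m ^ s` -/
noncomputable def Li (s : ℕ) (x : ℝ) : ℝ := ∑' m : ℕ, x ^ (m + 1) / ((m : ℝ) + 1) ^ s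

/-- the truncated integral -/
noncomputable def I (s n : ℕ) : ℝ :=
  (∫ v in (1 / (n : ℝ))..1, Real.log (1 / v) ^ (s - 1) / (1 - v)) / (Nat.factorial (s - 1) : ℝ)

/-- the products -/
noncomputable def q (s i n : ℕ) : ℝ := Real.log n ^ i * Li (s - i) (1 / n)

/-- the space of the zeta values of the weights in `F` and of given real numbers -/
noncomputable def Z {g : ℕ} (F : Finset ℕ) (θ : Fin g → ℝ) : Submodule ℚ ℝ :=
  Submodule.span ℚ (Set.range θ ∪ {r | ∃ s ∈ F, r = zeta s})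

/-- the space of the truncated integrals and the products of the weights in `F` and of given real numbers -/
noncomputable def P {g : ℕ} (F : Finset ℕ) (θ : Fin g → ℝ) (n : ℕ) : Submodule ℚ ℝ :=
  Submodule.span ℚ (Set.range θ ∪ {r | ∃ s ∈ F, r = I s n ∨ ∃ i < s, r = q s i n})

/-- the space spanned by the preceding one and the products of weight `t` -/
noncomputable def P' {g : ℕ} (F : Finset ℕ) (t : ℕ) (θ : Fin g → ℝ) (n : ℕ) : Submodule ℚ ℝ :=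
  P F θ n ⊔ Submodule.span ℚ {r | ∃ i < t, r = q t i n}

/-- the linear form -/
noncomputable def form (F : Finset ℕ) (a : ℕ → ℂ) (κ : ℂ) (c : ℕ → ℕ → ℂ) (n : ℕ) : ℂ :=
  κ + ∑ s ∈ F, (a s * ((I s n : ℝ) : ℂ) + ∑ i ∈ Finset.range s, c s i * ((q s i n : ℝ) : ℂ))

/-- the relations over `K` come from those of the zeta values -/
def OnlyRelations (F : Finset ℕ) (K : Submodule ℚ ℂ) (n : ℕ) : Prop :=
  ∀ (a : ℕ → ℂ) (κ : ℂ) (c : ℕ → ℕ → ℂ), (∀ s, a s ∈ K) → κ ∈ K → (∀ s i, c s i ∈ K) → form F a κ c n = 0 →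
    κ + ∑ s ∈ F, a s * ((zeta s : ℝ) : ℂ) = 0 ∧ ∀ s ∈ F, ∀ i < s, (Nat.factorial i : ℂ) * c s i = a s

/-- the integral combinations of the `θ_l` with coefficients at most `H` -/
def Comb {g : ℕ} (θ : Fin g → ℂ) (H : ℝ) : Set ℂ :=
  {r | ∃ a : Fin g → ℤ, (∀ l, |((a l : ℤ) : ℝ)| ≤ H) ∧ r = ∑ l, (a l : ℂ) * θ l}

/-- small forms at the height `H` come from small forms in the zeta values -/
def Good {g : ℕ} (F : Finset ℕ) (B : ℕ) (θ : Fin g → ℂ) (n : ℕ) (H : ℝ) : Prop :=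
  ∀ (a : ℕ → ℂ) (κ : ℂ) (c : ℕ → ℕ → ℂ), (∀ s, a s ∈ Comb θ H) → κ ∈ Comb θ H → (∀ s i, c s i ∈ Comb θ H) →
    ‖κ + ∑ s ∈ F, a s * ((zeta s : ℝ) : ℂ)‖ ≤ H ^ B * ‖form F a κ c n‖ ∧
    ∀ s ∈ F, ∀ i < s, ‖(Nat.factorial i : ℂ) * c s i - a s‖ ≤ H ^ B * ‖form F a κ c n‖

/-- (1) the decompositions; (2) the dimensions; (3) one zeta value modulo others; (4) the irrationality of `ζ(11)`; (5) the
relations at almost all integers; (6) near relations. -/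
theorem result :
    (∀ s n : ℕ, 2 ≤ s → 2 ≤ n → zeta s = I s n + ∑ i ∈ Finset.range s, 1 / (Nat.factorial i : ℝ) * q s i n) ∧
    (∀ F : Finset ℕ, (∀ s ∈ F, 2 ≤ s) → ∀ g : ℕ,
      (∀ (θ : Fin g → ℝ) (n : ℕ), 2 ≤ n → finrank ℚ (P F θ n) ≤ finrank ℚ (Z F θ) + ∑ s ∈ F, s) ∧
      ∃ C c : ℝ, 0 < c ∧ ∀ θ : Fin g → ℝ, ∀ T : ℕ, 1 ≤ T →
        (({n : ℕ | 2 ≤ n ∧ n ≤ T ∧ ¬ finrank ℚ (P F θ n) = finrank ℚ (Z F θ) + ∑ s ∈ F, s}.ncard : ℕ) : ℝ) ≤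
          C * (T : ℝ) ^ (1 - c)) ∧
    (∀ F : Finset ℕ, (∀ s ∈ F, 2 ≤ s) → ∀ t : ℕ, 2 ≤ t → ∀ g : ℕ,
      (∀ θ : Fin g → ℝ, (zeta t ∉ Z F θ ↔ ∃ n : ℕ, 2 ≤ n ∧ I t n ∉ P' F t θ n)) ∧
      ∃ C c : ℝ, 0 < c ∧ ∀ θ : Fin g → ℝ, zeta t ∉ Z F θ → ∀ T : ℕ, 1 ≤ T →
        (({n : ℕ | 2 ≤ n ∧ n ≤ T ∧ I t n ∈ P' F t θ n}.ncard : ℕ) : ℝ) ≤ C * (T : ℝ) ^ (1 - c)) ∧
    ((Irrational (zeta 11) ↔ ∃ n : ℕ, 2 ≤ n ∧ ∀ (κ : ℚ) (c : ℕ → ℚ), I 11 n ≠ κ + ∑ i ∈ Finset.range 11, (c i : ℝ) * q 11 i n) ∧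
      (Irrational (zeta 11) ↔ ∃ C c : ℝ, 0 < c ∧ ∀ T : ℕ, 1 ≤ T → (({n : ℕ | 2 ≤ n ∧ n ≤ T ∧
        ∃ (κ : ℚ) (c : ℕ → ℚ), I 11 n = κ + ∑ i ∈ Finset.range 11, (c i : ℝ) * q 11 i n}.ncard : ℕ) : ℝ) ≤
          C * (T : ℝ) ^ (1 - c))) ∧
    (∀ F : Finset ℕ, (∀ s ∈ F, 2 ≤ s) → ∀ g : ℕ, ∃ C c : ℝ, 0 < c ∧ ∀ θ : Fin g → ℂ, ∀ T : ℕ, 1 ≤ T →
      (({n : ℕ | 2 ≤ n ∧ n ≤ T ∧ ¬ OnlyRelations F (Submodule.span ℚ (Set.range θ)) n}.ncard : ℕ) : ℝ) ≤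
        C * (T : ℝ) ^ (1 - c)) ∧
    ∀ F : Finset ℕ, (∀ s ∈ F, 2 ≤ s) → ∀ g : ℕ, ∃ (B : ℕ) (C c : ℝ), 0 < c ∧ ∀ T : ℕ, 1 ≤ T →
      (∃ H₀ : ℝ, ∀ H₁ : ℝ, H₀ ≤ H₁ → ∀ θ : Fin g → ℂ,
        (({n : ℕ | 2 ≤ n ∧ n ≤ T ∧ ¬ ∀ H : ℝ, H₁ ≤ H → H ≤ H₁ ^ Real.exp ((T : ℝ) ^ c) → Good F B θ n H}.ncard : ℕ) : ℝ) ≤
          C * (T : ℝ) ^ (1 - c)) ∧
      ∀ θ : Fin g → ℂ, (({n : ℕ | 2 ≤ n ∧ n ≤ T ∧ ¬ ∀ N₀ : ℕ, ∃ N, N₀ ≤ N ∧
        (({j : ℕ | j < N ∧ ¬ ∀ H : ℝ, 2 ^ (2 ^ j) ≤ H → H ≤ 2 ^ (2 ^ (j + 1)) → Good F B θ n H}.ncard : ℕ) : ℝ) ≤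
            (T : ℝ) ^ (-c) * N}.ncard : ℕ) : ℝ) ≤ C * (T : ℝ) ^ (1 - c) := by
  have hz : ∀ s, zeta s = Pool.Agent.Q189.MV.ze s := fun s => rfl
  have hI : ∀ s n : ℕ, 2 ≤ s → 2 ≤ n → I s n = Pool.Agent.Q189.MV.Inn s (1 / n) := by
    intro s n hs hn
    obtain ⟨h1, h2⟩ := Pool.Agent.Q189.MV.inv_pos_lt hn
    exact (Pool.Agent.Q189.MV.Inn_int (N := s) h1 h2 hs).symm
  have hq : ∀ s n i : ℕ, i < s → q s i n = Pool.Agent.Q189.MV.qq n s i := by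
    intro s n i hi
    obtain ⟨j, hj⟩ : ∃ j, s - i = j + 1 := ⟨s - i - 1, by omega⟩
    unfold q Pool.Agent.Q189.MV.qq
    rw [hj]
    rfl
  have hZ : ∀ {g : ℕ} (F : Finset ℕ) (θ : Fin g → ℝ), Z F θ = Pool.Agent.Q189.MV.SZ F θ := fun F θ => rfl
  have hP : ∀ {g : ℕ} (F : Finset ℕ), (∀ s ∈ F, 2 ≤ s) → ∀ (θ : Fin g → ℝ) (n : ℕ), 2 ≤ n →
      P F θ n = Pool.Agent.Q189.MV.SP F θ n := by
    intro g F hF θ n hn
    unfold P Pool.Agent.Q189.MV.SP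
    congr 2
    ext r
    constructor
    · rintro ⟨s, hs, hr | ⟨i, hi, hr⟩⟩
      · exact ⟨s, hs, Or.inl (by rw [hr, hI s n (hF s hs) hn])⟩
      · exact ⟨s, hs, Or.inr ⟨i, hi, by rw [hr, hq s n i hi]⟩⟩
    · rintro ⟨s, hs, hr | ⟨i, hi, hr⟩⟩
      · exact ⟨s, hs, Or.inl (by rw [hr, hI s n (hF s hs) hn])⟩
      · exact ⟨s, hs, Or.inr ⟨i, hi, by rw [hr, hq s n i hi]⟩⟩
  have hP' : ∀ {g : ℕ} (F : Finset ℕ), (∀ s ∈ F, 2 ≤ s) → ∀ (t : ℕ) (θ : Fin g → ℝ) (n : ℕ), 2 ≤ n →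
      P' F t θ n = Pool.Agent.Q189.MV.SQ F t θ n := by
    intro g F hF t θ n hn
    unfold P' Pool.Agent.Q189.MV.SQ
    rw [hP F hF θ n hn]
    congr 2
    ext r
    constructor
    · rintro ⟨i, hi, hr⟩
      exact ⟨i, hi, by rw [hr, hq t n i hi]⟩
    · rintro ⟨i, hi, hr⟩
      exact ⟨i, hi, by rw [hr, hq t n i hi]⟩
  have hf : ∀ (F : Finset ℕ), (∀ s ∈ F, 2 ≤ s) → ∀ (a : ℕ → ℂ) (κ : ℂ) (c : ℕ → ℕ → ℂ) (n : ℕ), 2 ≤ n →
      form F a κ c n = Pool.Agent.Q189.MV.LF F a κ c n := by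
    intro F hF a κ c n hn
    unfold form Pool.Agent.Q189.MV.LF
    refine congrArg (fun r => κ + r) (Finset.sum_congr rfl fun s hs => ?_)
    rw [hI s n (hF s hs) hn]
    refine congrArg (fun r => a s * ((Pool.Agent.Q189.MV.Inn s (1 / n) : ℝ) : ℂ) + r) (Finset.sum_congr rfl fun i hi => ?_)
    rw [hq s n i (Finset.mem_range.1 hi)]
  have hR : ∀ n : ℕ, 2 ≤ n → ((∃ (κ : ℚ) (c : ℕ → ℚ), I 11 n = κ + ∑ i ∈ Finset.range 11, (c i : ℝ) * q 11 i n) ↔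
      Pool.Agent.Q189.MV.Rat1 11 n) := by
    intro n hn
    unfold Pool.Agent.Q189.MV.Rat1
    rw [hI 11 n (by norm_num) hn]
    refine exists_congr fun κ => exists_congr fun c => ?_
    have e : ∑ i ∈ Finset.range 11, (c i : ℝ) * q 11 i n =
        ∑ i ∈ Finset.range 11, (c i : ℝ) * (Real.log n ^ i * Pool.Agent.Q189.MV.Lv (11 - i) (1 / n)) :=
      Finset.sum_congr rfl fun i hi => by rw [hq 11 n i (Finset.mem_range.1 hi)]; rfl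
    rw [e]
  have hGd : ∀ {g : ℕ} (F : Finset ℕ), (∀ s ∈ F, 2 ≤ s) → ∀ (B : ℕ) (θ : Fin g → ℂ) (n : ℕ) (H : ℝ), 2 ≤ n →
      Pool.Agent.Q189.MV.GS F B θ n H → Good F B θ n H := by
    intro g F hF B θ n H hn h a κ c ha hκ hc
    rw [hf F hF a κ c n hn]
    exact h a κ c ha hκ hc
  refine ⟨fun s n hs hn => ?_, fun F hF g => ⟨fun θ n hn => ?_, ?_⟩, fun F hF t ht g => ⟨fun θ => ?_, ?_⟩, ⟨?_, ?_⟩,
    fun F hF g => ?_, fun F hF g => ?_⟩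
  · rw [hI s n hs hn, Pool.Agent.Q189.MV.Inn_qq hn hs, hz]
    have e : ∑ i ∈ Finset.range s, 1 / (Nat.factorial i : ℝ) * q s i n =
        ∑ i ∈ Finset.range s, 1 / (Nat.factorial i : ℝ) * Pool.Agent.Q189.MV.qq n s i :=
      Finset.sum_congr rfl fun i hi => by rw [hq s n i (Finset.mem_range.1 hi)]
    rw [e]
    ring
  · rw [hP F hF θ n hn, hZ]
    exact Pool.Agent.Q189.MV.finrank_SP_le hF θ hn
  · obtain ⟨C, c, hc, h⟩ := Pool.Agent.Q189.MV.few_SP F hF g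
    refine ⟨C, c, hc, fun θ T hT => ?_⟩
    refine le_trans (Nat.cast_le.2 (Set.ncard_le_ncard ?_ ((Set.finite_le_nat T).subset fun n hn => hn.2.1))) (h θ T hT)
    rintro n ⟨h1, h2, h3⟩
    rw [hP F hF θ n h1, hZ] at h3
    exact ⟨h1, h2, h3⟩
  · rw [hZ, hz]
    obtain ⟨C, c, hc, h⟩ := Pool.Agent.Q189.MV.few_SQ F hF ht g
    constructor
    · intro h1
      obtain ⟨n, hn, hne⟩ := Pool.Agent.Q189.MV.exists_few hc (h θ h1)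
      refine ⟨n, hn, ?_⟩
      rw [hP' F hF t θ n hn, hI t n ht hn]
      exact hne
    · rintro ⟨n, hn, hne⟩ h1
      apply hne
      rw [hP' F hF t θ n hn, hI t n ht hn]
      exact Pool.Agent.Q189.MV.mem_SQ hF ht h1 hn
  · obtain ⟨C, c, hc, h⟩ := Pool.Agent.Q189.MV.few_SQ F hF ht g
    refine ⟨C, c, hc, fun θ hθ T hT => ?_⟩
    refine le_trans (Nat.cast_le.2 (Set.ncard_le_ncard ?_ ((Set.finite_le_nat T).subset fun n hn => hn.2.1))) (h θ hθ T hT)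
    rintro n ⟨h1, h2, h3⟩
    rw [hP' F hF t θ n h1, hI t n ht h1] at h3
    exact ⟨h1, h2, h3⟩
  · rw [hz, (Pool.Agent.Q189.MV.crit_rat (N := 11) (by norm_num)).1]
    constructor
    · rintro ⟨n, hn, hne⟩
      exact ⟨n, hn, fun κ c h => hne ((hR n hn).1 ⟨κ, c, h⟩)⟩
    · rintro ⟨n, hn, hne⟩
      refine ⟨n, hn, fun h => ?_⟩
      obtain ⟨κ, c, h1⟩ := (hR n hn).2 h
      exact hne κ c h1
  · rw [hz, (Pool.Agent.Q189.MV.crit_rat (N := 11) (by norm_num)).2]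
    have e : ∀ T : ℕ, {n : ℕ | 2 ≤ n ∧ n ≤ T ∧ Pool.Agent.Q189.MV.Rat1 11 n} = {n : ℕ | 2 ≤ n ∧ n ≤ T ∧
        ∃ (κ : ℚ) (c : ℕ → ℚ), I 11 n = κ + ∑ i ∈ Finset.range 11, (c i : ℝ) * q 11 i n} := by
      intro T
      ext n
      constructor
      · rintro ⟨h1, h2, h3⟩
        exact ⟨h1, h2, (hR n h1).2 h3⟩
      · rintro ⟨h1, h2, h3⟩
        exact ⟨h1, h2, (hR n h1).1 h3⟩
    simp only [e]
  · obtain ⟨C, c, hc, h⟩ := Pool.Agent.Q189.MV.few_ES F hF g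
    refine ⟨C, c, hc, fun θ T hT => ?_⟩
    refine le_trans (Nat.cast_le.2 (Set.ncard_le_ncard ?_ ((Set.finite_le_nat T).subset fun n hn => hn.2.1))) (h θ T hT)
    rintro n ⟨h1, h2, h3⟩
    refine ⟨h1, h2, fun h4 => h3 fun a κ c' ha hκ hc' h0 => ?_⟩
    rw [hf F hF a κ c' n h1] at h0
    exact h4 a κ c' ha hκ hc' h0
  · obtain ⟨B, C, c, hc, h⟩ := Pool.Agent.Q189.MV.mainS F hF g
    refine ⟨B, C, c, hc, fun T hT => ?_⟩
    obtain ⟨⟨H₀, h1⟩, h2⟩ := h T hT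
    refine ⟨⟨H₀, fun H₁ hH₁ θ => ?_⟩, fun θ => ?_⟩
    · refine le_trans (Nat.cast_le.2 (Set.ncard_le_ncard ?_ ((Set.finite_le_nat T).subset fun n hn => hn.2.1))) (h1 H₁ hH₁ θ)
      rintro n ⟨e1, e2, e3⟩
      exact ⟨e1, e2, fun e4 => e3 fun H ha hb => hGd F hF B θ n H e1 (e4 H ha hb)⟩
    · refine le_trans (Nat.cast_le.2 (Set.ncard_le_ncard ?_ ((Set.finite_le_nat T).subset fun n hn => hn.2.1))) (h2 θ)
      rintro n ⟨e1, e2, e3⟩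
      refine ⟨e1, e2, fun e4 => e3 fun N₀ => ?_⟩
      obtain ⟨N, hN, hbad⟩ := e4 N₀
      refine ⟨N, hN, le_trans (Nat.cast_le.2 (Set.ncard_le_ncard ?_ ((Set.finite_lt_nat N).subset fun j hj => hj.1))) hbad⟩
      rintro j ⟨hj, hj'⟩
      exact ⟨hj, fun hcon => hj' fun H ha hb => hGd F hF B θ n H e1 (hcon H ha hb)⟩

end Pool.Agent.Results.MP_4f096c_nt.SimultaneousTruncation
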